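import Pool.Agent.H7.HD.Targets2

/-!
# MP_e37c09_lc: a regular cardinal with an atom is a strong limit cardinal in HOD (module KC)
-/

open Ordinal Cardinal Order Set
open scoped ZFSet

universe u

namespace Pool.Agent.H75.HD.KC

open _root_.HD

variable {en : Ordinal.{u} → ZFSet.{u}}

/-- the minimal codes of the ordinal definable subsets of `τ` -/
def cod (en : Ordinal.{u} → ZFSet.{u}) (τ : Ordinal.{u}) : Set Ordinal.{u} :=
  {c | en c ⊆ τ.toZFSet ∧ ∀ c' < c, en c' ≠ en c}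

theorem cod_unique {τ c c' : Ordinal.{u}} (h : c ∈ cod en τ) (h' : c' ∈ cod en τ)
    (he : en c = en c') : c = c' := by
  rcases lt_trichotomy c c' with h1 | h1 | h1
  · exact absurd he (h'.2 c h1)
  · exact h1
  · exact absurd he.symm (h.2 c' h1)

theorem exists_cod {τ c : Ordinal.{u}} (h : en c ⊆ τ.toZFSet) : ∃ z ∈ cod en τ, en z = en c := by
  obtain ⟨z, hz, hmin⟩ := HD.exists_min {b | en b = en c} ⟨c, rfl⟩ id
  refine ⟨z, ⟨?_, fun c' hc' he => ?_⟩, hz⟩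
  · have : en z = en c := hz
    rw [this]
    exact h
  · have h1 : en z = en c := hz
    exact absurd (hmin c' (he.trans h1)) (not_le.2 hc')

theorem ds_cod (hen : EN en) (τ : Ordinal.{u}) : DS (cod en τ) := by
  refine ⟨fun v => ∃ s, ((v 0).IsOrdinal ∧ s = en (v 0).rank) ∧ (∀ z ∈ s, z ∈ τ.toZFSet) ∧
    ∀ c' ∈ v 0, ∀ s', (c'.IsOrdinal ∧ s' = en c'.rank) → s' ≠ s, ?_, fun w => ?_⟩
  · refine DZ.ex (R := fun s v => ((v 0).IsOrdinal ∧ s = en (v 0).rank) ∧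
      (∀ z ∈ s, z ∈ τ.toZFSet) ∧ ∀ c' ∈ v 0, ∀ s', (c'.IsOrdinal ∧ s' = en c'.rank) → s' ≠ s)
      (DZ.and ?_ (DZ.and ?_ ?_))
    · exact hen.dz.ren (fun n => if n = 0 then 1 else 0)
    · exact DZ.od (R := fun b v => ∀ z ∈ v 0, z ∈ b) (OD.ordinal τ) (DZ.allMem 1 (DZ.mem 0 1))
    · refine DZ.allMem (R := fun c' v => ∀ s', (c'.IsOrdinal ∧ s' = en c'.rank) → s' ≠ v 0) 1
        (DZ.all (R := fun s' v => ((v 0).IsOrdinal ∧ s' = en (v 0).rank) → s' ≠ v 1)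
          (DZ.imp ?_ (DZ.eq 0 2).not))
      exact hen.dz.ren (fun n => if n = 0 then 1 else 0)
  · have e1 : (ov w 0).rank = w 0 := rank_toZFSet _
    have e2 : (ov w 0).IsOrdinal := ZFSet.isOrdinal_toZFSet _
    constructor
    · rintro ⟨h1, h2⟩
      refine ⟨en (w 0), ⟨e2, by rw [e1]⟩, fun z hz => h1 hz, ?_⟩
      rintro c' hc' s' ⟨h3, rfl⟩
      obtain ⟨b, hb, rfl⟩ := mem_toZFSet_iff.1 hc'
      rw [rank_toZFSet]
      exact h2 b hb
    · rintro ⟨s, ⟨-, rfl⟩, h1, h2⟩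
      rw [e1] at h1 h2
      refine ⟨fun z hz => h1 z hz, fun c' hc' => ?_⟩
      have := h2 c'.toZFSet (toZFSet_mem_toZFSet_iff.2 hc') (en c')
        ⟨ZFSet.isOrdinal_toZFSet _, by rw [rank_toZFSet]⟩
      exact this

/-- the relation `x` is the set with index `i` -/
def G (en : Ordinal.{u} → ZFSet.{u}) (τ i : Ordinal.{u}) (x : ZFSet.{u}) : Prop :=
  (∃ z, nth (cod en τ) i z ∧ x = en z) ∨ ((¬ ∃ z, nth (cod en τ) i z) ∧ x = ∅)

/-- the enumeration of the subsets of `τ` in HOD, restricted to `β` -/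
noncomputable def ff (en : Ordinal.{u} → ZFSet.{u}) (τ β : Ordinal.{u}) : ZFSet.{u} :=
  ZFSet.sep (fun p => ∃ (i : Ordinal.{u}) (x : ZFSet.{u}), p = ZFSet.pair i.toZFSet x ∧
    G en τ i x) (ZFSet.prod β.toZFSet (ZFSet.powerset τ.toZFSet))

theorem G_sub {τ i : Ordinal.{u}} {x : ZFSet.{u}} (h : G en τ i x) : x ⊆ τ.toZFSet := by
  rcases h with ⟨z, hz, rfl⟩ | ⟨-, rfl⟩
  · exact hz.1.1
  · exact ZFSet.empty_subset _

theorem mem_ff {τ β : Ordinal.{u}} {p : ZFSet.{u}} : p ∈ ff en τ β ↔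
    ∃ i < β, ∃ x, p = ZFSet.pair i.toZFSet x ∧ G en τ i x := by
  unfold ff
  rw [ZFSet.mem_sep]
  constructor
  · rintro ⟨h1, i, x, rfl, h⟩
    rw [ZFSet.pair_mem_prod, toZFSet_mem_toZFSet_iff] at h1
    exact ⟨i, h1.1, x, rfl, h⟩
  · rintro ⟨i, hi, x, rfl, h⟩
    rw [ZFSet.pair_mem_prod, toZFSet_mem_toZFSet_iff, ZFSet.mem_powerset]
    exact ⟨⟨hi, G_sub h⟩, i, x, rfl, h⟩

theorem do_nth (hDB : T_DB.{u}) (hen : EN en) (τ : Ordinal.{u}) :
    DO fun w => nth (cod en τ) (w 0) (w 1) :=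
  hDB (fun a _ => a ∈ cod en τ) (ds_cod hen τ)

theorem od_ff (hDB : T_DB.{u}) (hen : EN en) (τ β : Ordinal.{u}) : OD (ff en τ β) := by
  obtain ⟨Q, hQ, h⟩ := do_nth hDB hen τ
  have e : ∀ a b : Ordinal.{u}, (cons a.toZFSet fun _ => b.toZFSet) = ov (cns a fun _ => b) := by
    intro a b
    rw [ov_cns]
    rfl
  have hQ' : ∀ a b : Ordinal.{u}, nth (cod en τ) a b ↔ Q (cons a.toZFSet fun _ => b.toZFSet) := by
    intro a b
    rw [e]
    exact h (cns a fun _ => b)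
  have hQd : ∀ i j : ℕ, DZ fun v => Q (cons (v i) fun _ => v j) := by
    intro i j
    refine (hQ.ren (fun n => if n = 0 then i else j)).congr fun v => ?_
    have : (cons (v i) fun _ => v j) = fun n => v (if n = 0 then i else j) := by
      funext n
      rcases n with _ | n <;> simp
    rw [← this]
  refine OD.of_mem (P := fun v => ∃ i ∈ β.toZFSet, ∃ x, v 0 = ZFSet.pair i x ∧
    ((∃ z, Q (cons i fun _ => z) ∧ (z.IsOrdinal ∧ x = en z.rank)) ∨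
      ((¬ ∃ z, z.IsOrdinal ∧ Q (cons i fun _ => z)) ∧ x = ∅))) ?_ fun v => ?_
  · refine DZ.od (R := fun b v => ∃ i ∈ b, ∃ x, v 0 = ZFSet.pair i x ∧
      ((∃ z, Q (cons i fun _ => z) ∧ (z.IsOrdinal ∧ x = en z.rank)) ∨
        ((¬ ∃ z, z.IsOrdinal ∧ Q (cons i fun _ => z)) ∧ x = ∅))) (OD.ordinal β) (DZ.exMem 0 ?_)
    refine DZ.ex (R := fun x v => v 2 = ZFSet.pair (v 0) x ∧
      ((∃ z, Q (cons (v 0) fun _ => z) ∧ (z.IsOrdinal ∧ x = en z.rank)) ∨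
        ((¬ ∃ z, z.IsOrdinal ∧ Q (cons (v 0) fun _ => z)) ∧ x = ∅)))
      (DZ.and (loc_pair _ _ _).dz (DZ.or ?_ (DZ.and (DZ.not ?_) (loc_empty _).dz)))
    · refine DZ.ex (R := fun z v => Q (cons (v 1) fun _ => z) ∧ (z.IsOrdinal ∧ v 0 = en z.rank))
        (DZ.and (hQd 2 0) ?_)
      exact hen.dz.ren (fun n => if n = 0 then 0 else 1)
    · exact DZ.ex (R := fun z v => z.IsOrdinal ∧ Q (cons (v 1) fun _ => z))
        (DZ.and (DZ.ord 0) (hQd 2 0))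
  · rw [mem_ff]
    have hG : ∀ (a : Ordinal.{u}) (x : ZFSet.{u}), G en τ a x ↔
        ((∃ z, Q (cons a.toZFSet fun _ => z) ∧ (z.IsOrdinal ∧ x = en z.rank)) ∨
      ((¬ ∃ z, z.IsOrdinal ∧ Q (cons a.toZFSet fun _ => z)) ∧ x = ∅)) := by
      intro a x
      unfold G
      refine or_congr ?_ (and_congr_left' (not_congr ?_))
      · constructor
        · rintro ⟨z, hz, rfl⟩
          exact ⟨z.toZFSet, (hQ' a z).1 hz, ZFSet.isOrdinal_toZFSet _, by rw [rank_toZFSet]⟩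
        · rintro ⟨z, hz, hz', rfl⟩
          obtain ⟨b, rfl⟩ := ord_of hz'
          exact ⟨b, (hQ' a b).2 hz, by rw [rank_toZFSet]⟩
      · constructor
        · rintro ⟨z, hz⟩
          exact ⟨z.toZFSet, ZFSet.isOrdinal_toZFSet _, (hQ' a z).1 hz⟩
        · rintro ⟨z, hz', hz⟩
          obtain ⟨b, rfl⟩ := ord_of hz'
          exact ⟨b, (hQ' a b).2 hz⟩
    constructor
    · rintro ⟨i, hi, x, hx, h⟩
      obtain ⟨a, ha, rfl⟩ := mem_toZFSet_iff.1 hi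
      exact ⟨a, ha, x, hx, (hG a x).2 h⟩
    · rintro ⟨a, ha, x, hx, h⟩
      exact ⟨_, toZFSet_mem_toZFSet_iff.2 ha, x, hx, (hG a x).1 h⟩

theorem G_hod (hen : EN en) {τ i : Ordinal.{u}} {x : ZFSet.{u}} (h : G en τ i x) : HOD x := by
  refine HOD.of_sub (a := τ) ?_ (G_sub h)
  rcases h with ⟨z, -, rfl⟩ | ⟨-, rfl⟩
  · exact (hen.od _).2 ⟨z, rfl⟩
  · have := OD.ordinal (0 : Ordinal.{u})
    rwa [toZFSet_zero] at this

theorem pow_of_bound (hDB : T_DB.{u}) (hVH : T_VH.{u}) (hen : EN en) {τ β : Ordinal.{u}}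
    (hβ : ∀ a z, nth (cod en τ) a z → a < β) : PowHOD τ β := by
  obtain ⟨v1, v2, v3, v4⟩ := hVH (cod en τ)
  have huniq : ∀ i z z', nth (cod en τ) i z → nth (cod en τ) i z' → z = z' := by
    intro i z z' h h'
    have e1 := v2 i i z z' h h'
    have e2 := v2 i i z' z h' h
    exact le_antisymm (not_lt.1 fun hlt => lt_irrefl i (e2.2 hlt))
      (not_lt.1 fun hlt => lt_irrefl i (e1.2 hlt))
  refine ⟨ff en τ β, ZFSet.powerset τ.toZFSet, ?_, ⟨?_, ?_⟩, ?_⟩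
  · refine hod_iff.2 ⟨od_ff hDB hen τ β, fun y hy => ?_⟩
    obtain ⟨i, -, x, rfl, h⟩ := mem_ff.1 hy
    exact (HOD.ordinal i).pair (G_hod hen h)
  · intro p hp
    exact (ZFSet.mem_sep.1 hp).1
  · intro z hz
    obtain ⟨i, hi, rfl⟩ := mem_toZFSet_iff.1 hz
    by_cases hex : ∃ z, nth (cod en τ) i z
    · obtain ⟨z, hz⟩ := hex
      refine ⟨en z, mem_ff.2 ⟨i, hi, en z, rfl, Or.inl ⟨z, hz, rfl⟩⟩, fun y hy => ?_⟩
      obtain ⟨i', -, x, he, h⟩ := mem_ff.1 hy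
      obtain ⟨h1, rfl⟩ := ZFSet.pair_injective he
      obtain rfl := toZFSet_injective h1
      rcases h with ⟨z', hz', rfl⟩ | ⟨hn, -⟩
      · rw [huniq _ _ _ hz' hz]
      · exact absurd ⟨z, hz⟩ hn
    · refine ⟨∅, mem_ff.2 ⟨i, hi, ∅, rfl, Or.inr ⟨hex, rfl⟩⟩, fun y hy => ?_⟩
      obtain ⟨i', -, x, he, h⟩ := mem_ff.1 hy
      obtain ⟨h1, rfl⟩ := ZFSet.pair_injective he
      obtain rfl := toZFSet_injective h1
      rcases h with ⟨z', hz', rfl⟩ | ⟨-, h⟩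
      · exact absurd ⟨z', hz'⟩ hex
      · exact h
  · intro x hx hsub
    obtain ⟨c, rfl⟩ := (hen.od x).1 hx.od
    obtain ⟨z, hz, he⟩ := exists_cod hsub
    obtain ⟨a, -, ha⟩ := v1 z hz
    exact ⟨a, hβ a z ha, mem_ff.2 ⟨a, hβ a z ha, _, rfl, Or.inl ⟨z, ha, he.symm⟩⟩⟩

theorem pf_KC (hEA : T_EA.{u}) (hDB : T_DB.{u}) (hVA : T_VA.{u}) (hVB : T_VB.{u})
    (hVH : T_VH.{u}) : T_KC.{u} := by
  intro en hen μ K c hK hK0 hat τ hτ
  obtain ⟨ea1, -, ea3, -⟩ := hEA en hen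
  obtain ⟨v1, v2, v3, v4⟩ := hVH (cod en τ)
  by_contra hno
  -- all indices below `K` are attained
  have hall : ∀ i < K.ord, ∃ z, nth (cod en τ) i z := by
    intro i hi
    by_contra hcon
    refine hno ⟨i, hi, pow_of_bound hDB hVH hen fun a z haz => ?_⟩
    by_contra hai
    rcases (not_lt.1 hai).lt_or_eq with h | rfl
    · obtain ⟨y, -, hy⟩ := v3 a z haz i h
      exact hcon ⟨y, hy⟩
    · exact hcon ⟨z, haz⟩
  have hcof : K.ord.cof = K := hK.cof_ord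
  have hlim : IsSuccLimit K.ord := Cardinal.isSuccLimit_ord hK.aleph0_le
  have hKc : ℵ₀ < K.ord.cof := by rw [hcof]; exact hK0
  -- the sets of the indices
  let Y : Ordinal.{u} → Set Ordinal.{u} := fun b => {i | ∃ z, nth (cod en τ) i z ∧ b ∈ E en z}
  have hY : ∀ b, DS (Y b) := by
    intro b
    refine DO.ex (R := fun z w => nth (cod en τ) (w 0) z ∧ b ∈ E en z) (DO.and ?_ ?_)
    · exact (do_nth hDB hen τ).s2 1 0
    · exact DO.sub (R := fun a w => a ∈ E en (w 0)) b ea1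
  have hdec : ∀ b, ¬ Pos μ K.ord (E en c ∩ Y b) ∨ ¬ Pos μ K.ord (E en c \ Y b) := by
    intro b
    obtain ⟨e, he⟩ := ea3 _ (hY b) K.ord
    have h1 := hat.ult e
    rw [he] at h1
    rcases not_and_or.1 h1 with h | h
    · left
      intro hp
      exact h (hp.mono fun x hx h2 _ => ⟨h2.1, h2.2, hx⟩)
    · right
      intro hp
      exact h (hp.mono fun x hx h2 _ => ⟨h2.1, fun h3 => h2.2 h3.1⟩)
  let B : Set Ordinal.{u} := {b | ¬ Pos μ K.ord (E en c \ Y b)}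
  have hnull : ∀ b < τ, ¬ Pos μ K.ord {i | i ∈ E en c ∧ ¬ (i ∈ Y b ↔ b ∈ B)} := by
    intro b _ hp
    by_cases hb : b ∈ B
    · refine hb (hp.mono fun i _ hi _ => ⟨hi.1, fun h => hi.2 ⟨fun _ => hb, fun _ => h⟩⟩)
    · have h1 : ¬ Pos μ K.ord (E en c ∩ Y b) := by
        rcases hdec b with h | h
        · exact h
        · exact absurd h hb
      refine h1 (hp.mono fun i _ hi _ => ⟨hi.1, ?_⟩)
      by_contra h
      exact hi.2 ⟨fun h' => absurd h' h, fun h' => absurd h' hb⟩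
  have hτc : τ.card < K.ord.cof := by
    rw [hcof]
    exact Cardinal.lt_ord.1 hτ
  have hU := hVA μ K.ord hKc τ hτc _ hnull
  have hP := pos_diff hVA hKc hat.pos hU
  -- at most one index remains
  have hone : ∀ i < K.ord, ∀ i' < K.ord,
      i ∈ E en c \ {b | ∃ i < τ, b ∈ {i_1 | i_1 ∈ E en c ∧ ¬ (i_1 ∈ Y i ↔ i ∈ B)}} →
      i' ∈ E en c \ {b | ∃ i < τ, b ∈ {i_1 | i_1 ∈ E en c ∧ ¬ (i_1 ∈ Y i ↔ i ∈ B)}} → i = i' := by
    intro i hi i' hi' h h'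
    have g : ∀ b < τ, (i ∈ Y b ↔ b ∈ B) := by
      intro b hb
      by_contra hcon
      exact h.2 ⟨b, hb, h.1, hcon⟩
    have g' : ∀ b < τ, (i' ∈ Y b ↔ b ∈ B) := by
      intro b hb
      by_contra hcon
      exact h'.2 ⟨b, hb, h'.1, hcon⟩
    obtain ⟨z, hz⟩ := hall i hi
    obtain ⟨z', hz'⟩ := hall i' hi'
    have huniq : ∀ i z z', nth (cod en τ) i z → nth (cod en τ) i z' → z = z' := by
      intro i z z' h h'
      have e1 := v2 i i z z' h h'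
      have e2 := v2 i i z' z h' h
      exact le_antisymm (not_lt.1 fun hlt => lt_irrefl i (e2.2 hlt))
        (not_lt.1 fun hlt => lt_irrefl i (e1.2 hlt))
    have k : ∀ b, (i ∈ Y b ↔ b ∈ E en z) := by
      intro b
      constructor
      · rintro ⟨y, hy, hb⟩
        rwa [huniq _ _ _ hy hz] at hb
      · intro hb
        exact ⟨z, hz, hb⟩
    have k' : ∀ b, (i' ∈ Y b ↔ b ∈ E en z') := by
      intro b
      constructor
      · rintro ⟨y, hy, hb⟩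
        rwa [huniq _ _ _ hy hz'] at hb
      · intro hb
        exact ⟨z', hz', hb⟩
    have heq : en z = en z' := by
      ext x
      constructor
      · intro hx
        obtain ⟨b, hb, rfl⟩ := mem_toZFSet_iff.1 (hz.1.1 hx)
        exact (k' b).1 ((g' b hb).2 ((g b hb).1 ((k b).2 hx)))
      · intro hx
        obtain ⟨b, hb, rfl⟩ := mem_toZFSet_iff.1 (hz'.1.1 hx)
        exact (k b).1 ((g b hb).2 ((g' b hb).1 ((k' b).2 hx)))
    have hzz := cod_unique hz.1 hz'.1 heq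
    subst hzz
    have e1 := v2 i i' z z hz hz'
    have e2 := v2 i' i z z hz' hz
    exact le_antisymm (not_lt.1 fun hlt => lt_irrefl z (e2.1 hlt))
      (not_lt.1 fun hlt => lt_irrefl z (e1.1 hlt))
  obtain ⟨i0, hi0, -, hi0', -⟩ := hP univ ⟨fun a ha => ⟨succ a, hlim.succ_lt ha, Order.lt_succ a,
    trivial⟩, fun _ _ _ _ => trivial⟩
  refine hVB μ K.ord (succ i0) hlim (hlim.succ_lt hi0) (hP.mono fun i hi h _ => ?_)
  rw [hone i hi i0 hi0 h hi0']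
  exact Order.lt_succ i0

end Pool.Agent.H75.HD.KC
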