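import Pool.Agent.H7.HD.Targets2

/-!
# MP_e37c09_lc: reflection below an extendible cardinal (module RA)
-/

open Ordinal Cardinal Order Set
open scoped ZFSet

universe u

namespace Pool.Agent.H75.HD.RA

open _root_.HD

/-- `GoodN` gives `GoodB`. -/
theorem goodB_of_goodN {D : Cardinal.{u}} (h : GoodN D) (β : Ordinal.{u}) : GoodB β D.ord := by
  obtain ⟨h1, h2, h3, h4⟩ := h
  refine ⟨⟨D, rfl, h1, h2, h3⟩, fun μ hμ hω hcf κ _ hκ f hf hfun hpos => ?_⟩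
  have hcf' : μ.cof.ord = μ := hcf
  have hM : μ.cof.IsRegular := by
    refine ⟨?_, ?_⟩
    · have : ω ≤ μ.cof.ord := by rw [hcf']; exact hω
      exact Cardinal.omega0_le_ord.1 this
    · rw [hcf']
  have hMD : μ.cof < D := by
    have : μ.cof.ord < D.ord := by rw [hcf']; exact hμ
    exact Cardinal.ord_lt_ord.1 this
  have hκ' : D ≤ κ.cof := Cardinal.ord_le_ord.1 hκ
  have hod : OD f := by
    obtain ⟨N, _, hok, hden⟩ := hf
    exact od_iff_nm.2 ⟨N, hok, hden⟩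
  have := h4 μ.cof hM hMD κ hκ' (fun b i => ZFSet.pair b.toZFSet i.toZFSet ∈ f) hod.dr
    (fun b i i' hi hi' => toZFSet_injective (hfun _ _ _ hi hi'))
  apply this
  intro i hi
  rw [hcf']
  exact hpos i hi

theorem pf_RA (hRB : T_RB.{u}) (hXA : T_XA.{u}) : T_RA.{u} := by
  intro D hext hgood l hl
  -- step (ii)
  obtain ⟨η, hη, θ, j, hj⟩ := hXA D.ord hext D.ord
  have hδθ : D.ord < θ := (hη.trans hj.Jo_crit).trans (hj.Jo_lt hj.dlt)
  have hR : Loc.{u} fun v => v 2 ∈ v 0 ∧ v 0 ∈ v 1 ∧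
      ((v 1).IsOrdinal ∧ (v 0).IsOrdinal ∧ GoodB (v 1).rank (v 0).rank) := by
    refine (Loc.mem 2 0).and ((Loc.mem 0 1).and ?_)
    refine (hRB.ren (fun n => if n = 0 then 1 else 0)).congr fun v => ?_
    simp
  have key := hj.trl_ex (R := fun x w => w 1 ∈ x ∧ x ∈ w 0 ∧
    ((w 0).IsOrdinal ∧ x.IsOrdinal ∧ GoodB (w 0).rank x.rank)) hR
    [D.ord.toZFSet, l.toZFSet] (by
    intro x hx
    simp only [List.mem_cons, List.not_mem_nil, or_false] at hx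
    rcases hx with rfl | rfl
    · exact Gd.ord.2 hj.dlt
    · exact Gd.ord.2 (hl.trans hj.dlt))
  have h1 := key.2 ⟨D.ord.toZFSet, Gd.ord.2 hδθ, by
    simp only [List.map_cons, List.map_nil, sv_cons_zero, sv_cons_succ]
    refine ⟨?_, ?_, ?_, ZFSet.isOrdinal_toZFSet _, ?_⟩
    · rw [hj.fix l hl]
      exact toZFSet_mem_toZFSet_iff.2 hl
    · rw [hj.ord hj.dlt]
      exact toZFSet_mem_toZFSet_iff.2 (hη.trans hj.Jo_crit)
    · rw [hj.ord hj.dlt]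
      exact ZFSet.isOrdinal_toZFSet _
    · rw [rank_toZFSet]
      exact goodB_of_goodN hgood _⟩
  obtain ⟨x, -, hx1, hx2, -, hx3, hx4⟩ := h1
  have hl' : sv [D.ord.toZFSet, l.toZFSet] 1 = l.toZFSet := rfl
  have hd' : sv [D.ord.toZFSet, l.toZFSet] 0 = D.ord.toZFSet := rfl
  rw [hl'] at hx1
  rw [hd'] at hx2 hx4
  obtain ⟨d, rfl⟩ := ord_of hx3
  rw [toZFSet_mem_toZFSet_iff] at hx1 hx2
  rw [rank_toZFSet, rank_toZFSet] at hx4
  obtain ⟨D', rfl, hreg, hsl, hal⟩ := hx4.1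
  refine ⟨D', Cardinal.ord_lt_ord.1 hx2, hx1, hreg, hsl, hal, ?_⟩
  -- step (iii)
  intro M hM hMD κ hκ s hs hfun hpos
  have hf : OD (rs κ D'.ord s) := od_rs hs _ _
  obtain ⟨N, hok, hden⟩ := od_iff_nm.1 hf
  obtain ⟨η', hη', θ', j', hj'⟩ := hXA D.ord hext (max N.a κ)
  have htr := hj'.trl hRB [D.ord.toZFSet, D'.ord.toZFSet] (by
    intro x hx
    simp only [List.mem_cons, List.not_mem_nil, or_false] at hx
    rcases hx with rfl | rfl
    · exact Gd.ord.2 hj'.dlt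
    · exact Gd.ord.2 (hx2.trans hj'.dlt))
  have h2 := htr.1 ⟨ZFSet.isOrdinal_toZFSet _, ZFSet.isOrdinal_toZFSet _, by
    simp only [sv_cons_zero, sv_cons_succ]
    rw [rank_toZFSet, rank_toZFSet]
    exact hx4⟩
  obtain ⟨-, -, h3⟩ := h2
  have e0 : (sv (List.map j' [D.ord.toZFSet, D'.ord.toZFSet]) 0) = (Jo j' D.ord).toZFSet :=
    hj'.ord hj'.dlt
  have e1 : (sv (List.map j' [D.ord.toZFSet, D'.ord.toZFSet]) 1) = D'.ord.toZFSet :=
    hj'.fix _ hx2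
  rw [e0, e1, rank_toZFSet, rank_toZFSet] at h3
  refine h3.2 M.ord (Cardinal.ord_lt_ord.2 hMD) (Cardinal.omega0_le_ord.2 hM.aleph0_le) ?_ κ
    (((le_max_right _ _).trans_lt hη').trans hj'.Jo_crit) (Cardinal.ord_le_ord.2 hκ)
    (rs κ D'.ord s) ⟨N, ((le_max_left _ _).trans_lt hη').trans hj'.Jo_crit, hok, hden⟩ ?_ ?_
  · show M.ord.cof.ord = M.ord
    rw [hM.cof_ord]
  · intro b i i' h h'
    obtain ⟨a, _, c, _, hR, he⟩ := mem_rs.1 h
    obtain ⟨a', _, c', _, hR', he'⟩ := mem_rs.1 h'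
    obtain ⟨rfl, rfl⟩ := ZFSet.pair_injective he
    obtain ⟨h5, rfl⟩ := ZFSet.pair_injective he'
    have := toZFSet_injective h5
    subst this
    rw [hfun _ _ _ hR hR']
  · intro i hi
    refine (hpos i hi).mono fun b hb hb' _ => ?_
    exact pair_mem_rs.2 ⟨hb, hi, hb'⟩

end Pool.Agent.H75.HD.RA
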